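import Pool.Agent.HIK.Stmts

/-! HIK, extension: density zero from windows at the points with a large conjugate. -/

set_option autoImplicit false

namespace Pool.Agent.HIK

open Polynomial NumberField

/-- AVS: density zero from windows `a, a - 1, .., a - (M - 1)` at the points `a` of large house with
`δ house a ≤ ‖σ a‖`, for every `M` and `δ`. -/
def AvsStmt : Prop :=
  ∀ (K : Type) [Field K] [NumberField K] (σ : K →+* ℂ) (S : Set (𝓞 K)) (C : ℕ),
    (∀ (M : ℕ) (δ : ℝ), 0 < δ → ∃ H0 : ℝ, ∀ a : 𝓞 K, H0 ≤ house (a : K) →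
      δ * house (a : K) ≤ ‖σ a‖ → Nat.card {κ : ℕ // κ < M ∧ a - κ ∈ S} ≤ C) → DZ K S

namespace H35

variable {K : Type} [Field K] [NumberField K]

open Classical in
/-- double counting of translates -/
theorem count_shift (hfin : ∀ X : ℕ, {a : 𝓞 K | house (a : K) ≤ X}.Finite) (S : Set (𝓞 K))
    (n X T : ℕ) (e : ℕ → 𝓞 K) (he : ∀ j < n, house (e j : K) ≤ T) :
    n * ((hfin X).toFinset.filter (· ∈ S)).card ≤
      ∑ a ∈ (hfin (X + T)).toFinset, ((Finset.range n).filter fun j => a + e j ∈ S).card := by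
  simp_rw [Finset.card_filter (fun j => _ + e j ∈ S)]
  rw [Finset.sum_comm]
  rw [show n * ((hfin X).toFinset.filter (· ∈ S)).card =
    ∑ _j ∈ Finset.range n, ((hfin X).toFinset.filter (· ∈ S)).card by simp]
  refine Finset.sum_le_sum fun j hj => ?_
  rw [← Finset.card_filter]
  refine Finset.card_le_card_of_injOn (fun a => a - e j) ?_ ?_
  · intro a ha
    obtain ⟨ha1, ha2⟩ := Finset.mem_filter.1 (Finset.mem_coe.1 ha)
    rw [Finset.mem_coe, Finset.mem_filter]
    refine ⟨?_, by rw [sub_add_cancel]; exact ha2⟩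
    rw [Set.Finite.mem_toFinset] at ha1 ⊢
    have h1 : house (a : K) ≤ X := ha1
    have h2 := he j (Finset.mem_range.1 hj)
    have h3 : house ((a : K) + -(e j : K)) ≤ house (a : K) + house (-(e j : K)) :=
      house_add_le _ _
    have h4 : house (-(e j : K)) = house (e j : K) := by
      unfold house
      rw [map_neg, norm_neg]
    change house (((a - e j : 𝓞 K)) : K) ≤ ((X + T : ℕ) : ℝ)
    push_cast
    rw [sub_eq_add_neg]
    linarith
  · intro a _ b _ hab
    exact sub_left_injective hab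

/-- the number of natural numbers in a ball -/
theorem card_ball (T : ℕ) (z : ℂ) (r : ℝ) (hr : 0 ≤ r) :
    (((Finset.range T).filter fun j : ℕ => ‖z + j‖ < r).card : ℝ) ≤ 2 * r + 1 := by
  classical
  set s := (Finset.range T).filter fun j : ℕ => ‖z + j‖ < r with hs
  have h1 : ∀ j ∈ s, |z.re + j| < r := by
    intro j hj
    have h2 := (Finset.mem_filter.1 hj).2
    have h3 := Complex.abs_re_le_norm (z + j)
    simp only [Complex.add_re, Complex.natCast_re] at h3
    linarith
  by_cases hne : s.Nonempty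
  · set a := s.min' hne with ha
    have hsub : s ⊆ Finset.Icc a (a + ⌊2 * r⌋₊) := by
      intro j hj
      rw [Finset.mem_Icc]
      have haj : a ≤ j := Finset.min'_le _ _ hj
      refine ⟨haj, ?_⟩
      have h2 := abs_lt.1 (h1 j hj)
      have h3 := abs_lt.1 (h1 a (Finset.min'_mem _ _))
      have h4 : ((j - a : ℕ) : ℝ) ≤ 2 * r := by
        rw [Nat.cast_sub haj]
        linarith [h2.2, h3.1]
      have h5 := Nat.le_floor h4
      omega
    have h6 := Finset.card_le_card hsub
    rw [Nat.card_Icc] at h6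
    have h7 : s.card ≤ ⌊2 * r⌋₊ + 1 := by omega
    have h8 : (s.card : ℝ) ≤ (⌊2 * r⌋₊ : ℝ) + 1 := by exact_mod_cast h7
    have h9 := Nat.floor_le (by linarith : 0 ≤ 2 * r)
    linarith
  · rw [Finset.not_nonempty_iff_eq_empty.1 hne]
    simp
    linarith

theorem house_natCast (n : ℕ) : house ((n : 𝓞 K) : K) = n := by
  have h := house_intCast (K := K) (n : ℤ)
  push_cast at h ⊢
  rw [h]
  simp

theorem house_neg_natCast (n : ℕ) : house ((-(n : 𝓞 K) : 𝓞 K) : K) = n := by
  have h := house_intCast (K := K) (-(n : ℤ))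
  push_cast at h ⊢
  rw [h]
  simp

open Classical in
theorem card_eq (hfin : ∀ X : ℕ, {a : 𝓞 K | house (a : K) ≤ X}.Finite) (S : Set (𝓞 K)) (X : ℕ) :
    Nat.card {a : 𝓞 K // a ∈ S ∧ house (a : K) ≤ X} =
      ((hfin X).toFinset.filter (· ∈ S)).card := by
  rw [← Nat.card_eq_finsetCard]
  refine Nat.card_congr (Equiv.subtypeEquivRight fun a => ?_)
  rw [Finset.mem_filter, Set.Finite.mem_toFinset]
  exact and_comm

open Classical in
theorem avs (box : BoxStmt) (dzc : DzcStmt) : AvsStmt := by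
  intro K _ _ σ S C hS
  obtain ⟨C1, hC1⟩ := box K
  have hfin : ∀ X : ℕ, {a : 𝓞 K | house (a : K) ≤ X}.Finite := fun X => (hC1 X).1
  obtain ⟨m, hm⟩ : ∃ m, m = Module.finrank ℚ K := ⟨_, rfl⟩
  have hm1 : 1 ≤ m := by
    rw [hm]
    exact Module.finrank_pos
  have hB : ∀ X : ℕ, ((hfin X).toFinset.card : ℝ) ≤ C1 * ((X : ℝ) + 1) ^ m := by
    intro X
    have h1 := (hC1 X).2
    have h2 : Nat.card {a : 𝓞 K // house (a : K) ≤ X} = (hfin X).toFinset.card := by
      rw [← Nat.card_eq_finsetCard]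
      refine Nat.card_congr (Equiv.subtypeEquivRight fun a => ?_)
      rw [Set.Finite.mem_toFinset]
      exact Iff.rfl
    rw [h2, ← hm] at h1
    exact_mod_cast h1
  apply (dzc K).2.2.2
  intro ε hε
  obtain ⟨A, hA⟩ : ∃ A : ℝ, A = C1 * 6 ^ m + 1 := ⟨_, rfl⟩
  have hApos : 0 < A := by
    rw [hA]
    positivity
  obtain ⟨M, hM⟩ := exists_nat_gt (4 * (C * A) / ε)
  have hMpos : (0 : ℝ) < M := lt_of_le_of_lt (by positivity) hM
  have hM1 : 1 ≤ M := by exact_mod_cast hMpos
  obtain ⟨δ, hδ⟩ : ∃ δ : ℝ, δ = ε / (8 * A) := ⟨_, rfl⟩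
  have hδpos : 0 < δ := by
    rw [hδ]
    positivity
  obtain ⟨H0, hH0⟩ := hS M δ hδpos
  obtain ⟨n0, hn0⟩ : ∃ n0 : ℕ, n0 = (hfin ⌈H0⌉₊).toFinset.card := ⟨_, rfl⟩
  obtain ⟨Y0, hY0⟩ := exists_nat_gt (4 * (A + n0) / ε)
  refine ⟨Y0 + M + 1, fun Y hY => ?_⟩
  rw [card_eq hfin, ← hm]
  obtain ⟨X, hX⟩ : ∃ X : ℕ, X = Y + M := ⟨_, rfl⟩
  have hYr : (1 : ℝ) ≤ Y := by
    have : 1 ≤ Y := by omega
    exact_mod_cast this
  have hXY : (X : ℝ) ≤ 2 * Y := by
    have : X ≤ 2 * Y := by omega
    exact_mod_cast this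
  have hYX : (Y : ℝ) ≤ X := by
    have : Y ≤ X := by omega
    exact_mod_cast this
  have hXpos : (0 : ℝ) < X := by linarith
  -- the region
  set R : Set (𝓞 K) := {a : 𝓞 K | ‖σ a‖ < δ * X} with hR
  have hreg : (((hfin X).toFinset.filter (· ∈ R)).card : ℝ) ≤
      (hfin (X + X)).toFinset.card * (2 * δ + 1 / X) := by
    have h1 := count_shift hfin R X X X (fun j => (j : 𝓞 K)) (fun j hj => by
      rw [house_natCast]
      exact_mod_cast hj.le)
    have h2 : ((∑ a ∈ (hfin (X + X)).toFinset,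
        ((Finset.range X).filter fun j : ℕ => a + (j : 𝓞 K) ∈ R).card : ℕ) : ℝ) ≤
        (hfin (X + X)).toFinset.card * (2 * (δ * X) + 1) := by
      push_cast
      rw [← nsmul_eq_mul]
      refine Finset.sum_le_card_nsmul _ _ _ fun a _ => ?_
      have h3 := card_ball X (σ a) (δ * X) (by positivity)
      refine le_trans (le_of_eq ?_) h3
      congr 2
      refine Finset.filter_congr fun j _ => ?_
      rw [hR]
      change ‖σ ((a + (j : 𝓞 K) : 𝓞 K) : K)‖ < δ * X ↔ _
      have e1 : σ ((a + (j : 𝓞 K) : 𝓞 K) : K) = σ (a : K) + j := by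
        simp
      rw [e1]
    have h4 : (X : ℝ) * (((hfin X).toFinset.filter (· ∈ R)).card : ℝ) ≤
        (hfin (X + X)).toFinset.card * (2 * (δ * X) + 1) := by
      refine le_trans ?_ h2
      exact_mod_cast h1
    have h5 : ((hfin (X + X)).toFinset.card : ℝ) * (2 * (δ * X) + 1) =
        X * ((hfin (X + X)).toFinset.card * (2 * δ + 1 / X)) := by
      field_simp
    rw [h5] at h4
    exact le_of_mul_le_mul_left h4 hXpos
  -- the windows
  have hwin : (M : ℝ) * (((hfin Y).toFinset.filter (· ∈ S)).card : ℝ) ≤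
      C * (hfin X).toFinset.card + M * ((((hfin X).toFinset.filter (· ∈ R)).card : ℝ) + n0) := by
    have h1 := count_shift hfin S M Y M (fun j => -(j : 𝓞 K)) (fun j hj => by
      rw [house_neg_natCast]
      exact_mod_cast hj.le)
    rw [← hX] at h1
    have h2 : ∑ a ∈ (hfin X).toFinset,
        ((Finset.range M).filter fun j : ℕ => a + -(j : 𝓞 K) ∈ S).card ≤
        ∑ a ∈ (hfin X).toFinset, (C + ((if a ∈ R then M else 0) +
          (if a ∈ (hfin ⌈H0⌉₊).toFinset then M else 0))) := by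
      refine Finset.sum_le_sum fun a ha => ?_
      rw [Set.Finite.mem_toFinset] at ha
      have haX : house (a : K) ≤ X := ha
      by_cases haR : a ∈ R
      · rw [if_pos haR]
        have h3 := Finset.card_filter_le (Finset.range M) (fun j : ℕ => a + -(j : 𝓞 K) ∈ S)
        rw [Finset.card_range] at h3
        omega
      by_cases haH : a ∈ (hfin ⌈H0⌉₊).toFinset
      · rw [if_pos haH]
        have h3 := Finset.card_filter_le (Finset.range M) (fun j : ℕ => a + -(j : 𝓞 K) ∈ S)
        rw [Finset.card_range] at h3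
        omega
      rw [if_neg haR, if_neg haH]
      have h4 : H0 ≤ house (a : K) := by
        by_contra hcon
        rw [not_le] at hcon
        apply haH
        rw [Set.Finite.mem_toFinset]
        exact hcon.le.trans (Nat.le_ceil H0)
      have h5 : δ * house (a : K) ≤ ‖σ a‖ := by
        have h6 : δ * X ≤ ‖σ a‖ := not_lt.1 haR
        refine le_trans ?_ h6
        exact mul_le_mul_of_nonneg_left haX hδpos.le
      have h7 := hH0 a h4 h5
      refine le_trans (le_of_eq ?_) (h7.trans (Nat.le_add_right _ _))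
      rw [← Nat.card_eq_finsetCard]
      refine Nat.card_congr (Equiv.subtypeEquivRight fun κ => ?_)
      rw [Finset.mem_filter, Finset.mem_range, ← sub_eq_add_neg]
    have h3 : ∑ a ∈ (hfin X).toFinset, (C + ((if a ∈ R then M else 0) +
          (if a ∈ (hfin ⌈H0⌉₊).toFinset then M else 0))) ≤
        (hfin X).toFinset.card * C + (((hfin X).toFinset.filter (· ∈ R)).card * M + n0 * M) := by
      rw [Finset.sum_add_distrib, Finset.sum_add_distrib, Finset.sum_const, smul_eq_mul]
      refine Nat.add_le_add_left (Nat.add_le_add ?_ ?_) _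
      · rw [← Finset.sum_filter, Finset.sum_const, smul_eq_mul]
      · rw [← Finset.sum_filter, Finset.sum_const, smul_eq_mul, hn0]
        refine Nat.mul_le_mul_right _ (Finset.card_le_card ?_)
        intro a ha
        exact (Finset.mem_filter.1 ha).2
    have h4 := (h1.trans h2).trans h3
    have h5 : (M : ℝ) * (((hfin Y).toFinset.filter (· ∈ S)).card : ℝ) ≤
        (hfin X).toFinset.card * C +
          ((((hfin X).toFinset.filter (· ∈ R)).card : ℝ) * M + n0 * M) := by
      exact_mod_cast h4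
    linarith
  -- bounds for the boxes
  have hb1 : ((hfin X).toFinset.card : ℝ) ≤ A * (Y : ℝ) ^ m := by
    refine (hB X).trans ?_
    have h1 : ((X : ℝ) + 1) ^ m ≤ (6 * Y) ^ m :=
      pow_le_pow_left₀ (by positivity) (by linarith) _
    calc (C1 : ℝ) * ((X : ℝ) + 1) ^ m ≤ C1 * (6 * Y) ^ m := by gcongr
      _ = (C1 * 6 ^ m) * (Y : ℝ) ^ m := by rw [mul_pow]; ring
      _ ≤ A * (Y : ℝ) ^ m := by
        refine mul_le_mul_of_nonneg_right ?_ (by positivity)
        rw [hA]
        linarith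
  have hb2 : ((hfin (X + X)).toFinset.card : ℝ) ≤ A * (Y : ℝ) ^ m := by
    refine (hB (X + X)).trans ?_
    have h1 : (((X + X : ℕ) : ℝ) + 1) ^ m ≤ (6 * Y) ^ m := by
      refine pow_le_pow_left₀ (by positivity) ?_ _
      push_cast
      linarith
    calc (C1 : ℝ) * (((X + X : ℕ) : ℝ) + 1) ^ m ≤ C1 * (6 * Y) ^ m := by gcongr
      _ = (C1 * 6 ^ m) * (Y : ℝ) ^ m := by rw [mul_pow]; ring
      _ ≤ A * (Y : ℝ) ^ m := by
        refine mul_le_mul_of_nonneg_right ?_ (by positivity)
        rw [hA]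
        linarith
  -- conclusion
  obtain ⟨y, hy⟩ : ∃ y : ℝ, y = (Y : ℝ) ^ m := ⟨_, rfl⟩
  have hypos : 0 < y := by
    rw [hy]
    positivity
  rw [← hy] at hb1 hb2 ⊢
  have hyY : 1 ≤ y / Y := by
    rw [le_div_iff₀ (by linarith), one_mul, hy]
    calc (Y : ℝ) = (Y : ℝ) ^ 1 := (pow_one _).symm
      _ ≤ (Y : ℝ) ^ m := pow_le_pow_right₀ hYr hm1
  have h6 : (((hfin X).toFinset.filter (· ∈ R)).card : ℝ) ≤ A * y * (2 * δ + 1 / Y) := by
    refine hreg.trans ?_
    refine mul_le_mul hb2 ?_ (by positivity) (by positivity)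
    have : (1 : ℝ) / X ≤ 1 / Y := one_div_le_one_div_of_le (by linarith) hYX
    linarith
  have h7 : (((hfin Y).toFinset.filter (· ∈ S)).card : ℝ) ≤
      C * (A * y) / M + (A * y * (2 * δ + 1 / Y) + n0 * (y / Y)) := by
    have h8 : (M : ℝ) * (((hfin Y).toFinset.filter (· ∈ S)).card : ℝ) ≤
        M * (C * (A * y) / M + (A * y * (2 * δ + 1 / Y) + n0 * (y / Y))) := by
      refine hwin.trans ?_
      have e2 : M * (C * (A * y) / M + (A * y * (2 * δ + 1 / Y) + n0 * (y / Y))) =
          C * (A * y) + M * (A * y * (2 * δ + 1 / Y) + n0 * (y / Y)) := by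
        field_simp
      rw [e2]
      refine add_le_add (mul_le_mul_of_nonneg_left hb1 (by positivity)) ?_
      refine mul_le_mul_of_nonneg_left (add_le_add h6 ?_) hMpos.le
      exact le_mul_of_one_le_right (by positivity) hyY
    exact le_of_mul_le_mul_left h8 hMpos
  refine h7.trans ?_
  have h9 : (C : ℝ) * A / M ≤ ε / 4 := by
    rw [div_le_iff₀ hMpos]
    rw [div_lt_iff₀ hε] at hM
    linarith
  have h10 : A * (2 * δ) = ε / 4 := by
    rw [hδ]
    field_simp
    ring
  have h11 : (A + n0) / Y ≤ ε / 4 := by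
    rw [div_le_iff₀ (by linarith)]
    have h12 : (Y0 : ℝ) ≤ Y := by
      have : Y0 ≤ Y := by omega
      exact_mod_cast this
    rw [div_lt_iff₀ hε] at hY0
    nlinarith
  have h13 : C * (A * y) / M + (A * y * (2 * δ + 1 / Y) + n0 * (y / Y)) =
      y * (C * A / M + A * (2 * δ) + (A + n0) / Y) := by
    field_simp
    ring
  rw [h13, mul_comm ε y]
  refine mul_le_mul_of_nonneg_left ?_ hypos.le
  linarith

end H35

end Pool.Agent.HIK
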