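import Pool.Agent.HIK.Stmts
import Pool.Agent.MTN.Defs

/-! HIK, extension: Hilbert's irreducibility theorem with the compatibility of the embeddings, and the
specialised representation of the Galois group of the number field. -/

set_option autoImplicit false

namespace Pool.Agent.HIK

open Polynomial NumberField Matrix Pool.Agent.MTL Pool.Agent.MTL.H34 Pool.Agent.Helper78_MT

universe u

/-- HIC: HIG with the compatibility of `φ` and `ψ`. -/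
def HicStmt : Prop :=
  ∀ (K : Type) [Field K] [NumberField K] (N : Subgroup GT), N.Normal → IsOpen (N : Set GT) →
    ∃ S : Set (𝓞 K), DZ K S ∧ ∀ a ∉ S, ∀ (ψ : K →+* QB) (π : BB →+* QB),
      π (algebraMap ℚ[X] BB X) = ψ a → ∃ φ : K →+* Om,
        (∀ c : K, ∃ b : BB, (b : Om) = φ c ∧ π b = ψ c) ∧
        ∀ γ ∈ Gph φ, ∃ σ ∈ decG π, σ ∈ Gph φ ∧ σ⁻¹ * γ ∈ N

/-- GKS: for one hundred percent of the elements of `𝓞 K` the specialised representation of the Galois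
group of `K` has an image between the images of a subgroup of finite index and of the whole group. -/
def GksStmt : Prop :=
  ∀ (K : Type) [Field K] [NumberField K] (d : Type) [Fintype d] [DecidableEq d] (ℓ : ℕ)
    [Fact ℓ.Prime] (ρ : GT →* GL d ℚ_[ℓ]), Continuous ρ → ∃ S : Set (𝓞 K), DZ K S ∧
      ∀ a ∉ S, ∀ (ψ : K →+* QB) (ρa : MTN.Gk ψ →* GL d ℚ_[ℓ]), MTN.SpecK ρ ψ (a : K) ρa →
        Set.range ρa ⊆ Set.range ρ ∧
        ∃ Γ : Subgroup GT, Γ.FiniteIndex ∧ ρ '' (Γ : Set GT) ⊆ Set.range ρa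

/-- GKM: for one hundred percent of the elements of `𝓞 K` the specialised representation of the Galois
group of `K` has the same connected algebraic monodromy group. -/
def GkmStmt : Prop :=
  ∀ (K : Type) [Field K] [NumberField K] (d : Type) [Fintype d] [DecidableEq d] (ℓ : ℕ)
    [Fact ℓ.Prime] (ρ : GT →* GL d ℚ_[ℓ]), Continuous ρ → ∃ S : Set (𝓞 K), DZ K S ∧
      ∀ a ∉ S, ∀ (ψ : K →+* QB) (ρa : MTN.Gk ψ →* GL d ℚ_[ℓ]), MTN.SpecK ρ ψ (a : K) ρa →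
        ∀ (F : Type u) [Field F] [Algebra ℚ_[ℓ] F], monodromy ρa F = monodromy ρ F

namespace H35

theorem finite_emb (K : Type) [Field K] [NumberField K] : Finite (K →+* Om) := by
  have h1 : Finite (K →ₐ[ℚ] Om) := inferInstance
  exact Finite.of_injective (fun φ : K →+* Om => φ.toRatAlgHom) (fun a b hab => by
    ext x
    exact DFunLike.congr_fun hab x)

theorem hic (exo : ExoStmt) (hid : HidStmt) (dzc : DzcStmt) (cst : CstStmt) (res : ResStmt) :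
    HicStmt := by
  classical
  intro K _ _ N hNn hNo
  have := hNn
  have hfin : Finite (GT ⧸ N) := Subgroup.quotient_finite_of_isOpen N hNo
  have hfe := finite_emb K
  have hcl : ∀ D' : Subgroup (GT ⧸ N),
      IsClosed ((D'.comap (QuotientGroup.mk' N) : Subgroup GT) : Set GT) := by
    intro D'
    refine Subgroup.isClosed_of_isOpen _ (Subgroup.isOpen_mono (H₁ := N) ?_ hNo)
    intro σ hσ
    rw [Subgroup.mem_comap, QuotientGroup.mk'_apply, (QuotientGroup.eq_one_iff σ).2 hσ]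
    exact D'.one_mem
  choose x g hadm hgx hfix using
    fun D : {p : (K →+* Om) × Subgroup (GT ⧸ N) //
      ¬ Gph p.1 ≤ p.2.comap (QuotientGroup.mk' N)} => exo K D.1.1 _ (hcl D.1.2) D.2
  refine ⟨⋃ D, {a : 𝓞 K | ∃ y : 𝓞 K, evalEval a y (g D) = 0},
    (dzc K).2.1 _ _ fun D => hid K _ (hadm D), ?_⟩
  intro a ha ψ π hπ
  obtain ⟨φ, hφ⟩ := cst K ψ π
  refine ⟨φ, hφ, fun γ hγ => ?_⟩
  set D' := (decG π ⊓ Gph φ).map (QuotientGroup.mk' N) with hD'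
  by_cases htop : Gph φ ≤ D'.comap (QuotientGroup.mk' N)
  · obtain ⟨σ, hσ, hσγ⟩ := htop hγ
    refine ⟨σ, hσ.1, hσ.2, ?_⟩
    rw [QuotientGroup.mk'_apply, QuotientGroup.mk'_apply] at hσγ
    exact QuotientGroup.eq.1 hσγ
  · exfalso
    apply ha
    rw [Set.mem_iUnion]
    refine ⟨⟨(φ, D'), htop⟩, ?_⟩
    refine res K ψ a π hπ φ hφ (x ⟨(φ, D'), htop⟩) (g ⟨(φ, D'), htop⟩)
      (hadm ⟨(φ, D'), htop⟩).monic (hgx ⟨(φ, D'), htop⟩) fun σ hσ hσφ => ?_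
    refine hfix ⟨(φ, D'), htop⟩ σ ?_ hσφ
    rw [Subgroup.mem_comap]
    exact Subgroup.mem_map_of_mem _ ⟨hσ, hσφ⟩

theorem hig_of_hic (h : HicStmt) : HigStmt := by
  intro K _ _ N hN1 hN2
  obtain ⟨S, hS, hS2⟩ := h K N hN1 hN2
  refine ⟨S, hS, fun a ha ψ π hπ => ?_⟩
  obtain ⟨φ, _, hφ⟩ := hS2 a ha ψ π hπ
  exact ⟨φ, hφ⟩

theorem gks (hic : HicStmt) (dek : DekStmt) (gpf : GpfStmt) (fra : FraStmt) : GksStmt := by
  classical
  intro K _ _ d _ _ ℓ _ ρ hρ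
  have hfin := finite_emb K
  have hfr : ∀ φ : K →+* Om, ∃ U : Set (GL d ℚ_[ℓ]), IsOpen U ∧ 1 ∈ U ∧
      ∀ D : Subgroup (GL d ℚ_[ℓ]), IsClosed (D : Set (GL d ℚ_[ℓ])) → D ≤ (Gph φ).map ρ →
      (∀ g ∈ (Gph φ).map ρ, ∃ h ∈ D, h⁻¹ * g ∈ U) → D = (Gph φ).map ρ := by
    intro φ
    refine fra d ℓ ((Gph φ).map ρ) ?_
    rw [Subgroup.coe_map]
    exact (gpf K φ).2.1.isCompact.image hρ
  choose U hUo hU1 hU using hfr
  have hV : IsOpen (⋂ φ, U φ) := isOpen_iInter_of_finite hUo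
  obtain ⟨N, hN⟩ := ProfiniteGrp.exist_openNormalSubgroup_sub_open_nhds_of_one (G := GT)
    (U := ρ ⁻¹' (⋂ φ, U φ)) (hV.preimage hρ)
    (by rw [Set.mem_preimage, map_one]; exact Set.mem_iInter.2 hU1)
  obtain ⟨S, hS, hS2⟩ := hic K N.toSubgroup N.isNormal' N.isOpen'
  refine ⟨S, hS, fun a ha ψ ρa hsp => ?_⟩
  obtain ⟨π, hπ, hsp⟩ := hsp
  refine ⟨?_, ?_⟩
  · rintro g ⟨τ, rfl⟩
    obtain ⟨σ, hσ⟩ := (dek (ψ (a : K)) π hπ).2 τ (τ.2 (a : K))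
    exact ⟨σ, (hsp σ τ hσ).symm⟩
  · obtain ⟨φ, hφc, hφ⟩ := hS2 a ha ψ π hπ
    refine ⟨Gph φ, (gpf K φ).2.2, ?_⟩
    have hD : (decG π ⊓ Gph φ).map ρ = (Gph φ).map ρ := by
      apply hU φ
      · rw [Subgroup.coe_map, Subgroup.coe_inf]
        exact (((decG_closed π).inter (gpf K φ).2.1).isCompact.image hρ).isClosed
      · exact Subgroup.map_mono inf_le_right
      · rintro g ⟨γ, hγ, rfl⟩
        obtain ⟨σ, hσ, hσφ, hσγ⟩ := hφ γ hγ
        refine ⟨ρ σ, Subgroup.mem_map_of_mem _ ⟨hσ, hσφ⟩, ?_⟩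
        rw [← map_inv, ← map_mul]
        exact Set.mem_iInter.1 (hN hσγ) φ
    rintro g ⟨γ, hγ, rfl⟩
    have h5 : ρ γ ∈ (decG π ⊓ Gph φ).map ρ := by
      rw [hD]
      exact Subgroup.mem_map_of_mem _ hγ
    obtain ⟨σ, ⟨hσ, hσφ⟩, hσ2⟩ := h5
    obtain ⟨τ, hτ⟩ := hσ
    have hτK : τ ∈ MTN.Gk ψ := by
      intro c
      obtain ⟨b, hb1, hb2⟩ := hφc c
      have h6 : σ • b = b := by
        apply Subtype.ext
        change σ (b : Om) = b
        rw [hb1]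
        exact hσφ c
      rw [← hb2, ← hτ b, h6]
    rw [← hσ2]
    exact ⟨⟨τ, hτK⟩, hsp σ ⟨τ, hτK⟩ hτ⟩

theorem gkm (gks : GksStmt) (mon : MonStmt.{u}) : GkmStmt.{u} := by
  intro K _ _ d _ _ ℓ _ ρ hρ
  obtain ⟨S, hS, hS2⟩ := gks K d ℓ ρ hρ
  refine ⟨S, hS, fun a ha ψ ρa hsp F _ _ => ?_⟩
  obtain ⟨h1, h2⟩ := hS2 a ha ψ ρa hsp
  exact mon d ℚ_[ℓ] GT (MTN.Gk ψ) ρ ρa h1 h2 F

end H35

end Pool.Agent.HIK
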