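import Pool.Agent.HIK.Stmts

/-! HIK, extension: representations of open subgroups of the Galois group of `ℚ(t)` (families over
curves which cover the line), at all points above the elements of the ring of integers. -/

set_option autoImplicit false

namespace Pool.Agent.HIK

open Polynomial NumberField Matrix Pool.Agent.MTL Pool.Agent.MTL.H34 Pool.Agent.Helper78_MT

universe u

/-- The Galois group of the residue field of the point below `π` of the curve with function field the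
fixed field of `H`. -/
def StabH (H : Subgroup GT) (π : BB →+* QB) : Subgroup GQ where
  carrier := {τ | ∃ σ ∈ H, ∀ b : BB, π (σ • b) = τ (π b)}
  one_mem' := ⟨1, H.one_mem, fun b => by simp⟩
  mul_mem' := by
    rintro a b ⟨σ, hσ, h1⟩ ⟨σ', hσ', h2⟩
    exact ⟨σ * σ', H.mul_mem hσ hσ', fun x => by rw [mul_smul, h1, h2]; rfl⟩
  inv_mem' := by
    rintro a ⟨σ, hσ, h1⟩
    refine ⟨σ⁻¹, H.inv_mem hσ, fun x => ?_⟩
    have h := h1 (σ⁻¹ • x)
    rw [smul_inv_smul] at h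
    rw [h]
    exact (a.symm_apply_apply _).symm

/-- `ρs` is the specialisation of the representation `ρ` of `H` at the point below `π`. -/
def SpecH {G : Type*} [Group G] (H : Subgroup GT) (ρ : H →* G) (π : BB →+* QB)
    (ρs : StabH H π →* G) : Prop :=
  ∀ (σ : H) (τ : StabH H π), (∀ b : BB, π ((σ : GT) • b) = (τ : GQ) (π b)) → ρs τ = ρ σ

/-- SRB: SER for open subgroups. -/
def SrbStmt : Prop :=
  ∀ (K : Type) [Field K] [NumberField K] (H : Subgroup GT), IsOpen (H : Set GT) →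
    ∀ (d : Type) [Fintype d] [DecidableEq d] (ℓ : ℕ) [Fact ℓ.Prime] (ρ : H →* GL d ℚ_[ℓ]),
      Continuous ρ → ∃ S : Set (𝓞 K), DZ K S ∧ ∀ a ∉ S, ∀ (ψ : K →+* QB) (π : BB →+* QB),
        π (algebraMap ℚ[X] BB X) = ψ a → ∀ ρs : StabH H π →* GL d ℚ_[ℓ], SpecH H ρ π ρs →
        Set.range ρs ⊆ Set.range ρ ∧
        ∃ Γ : Subgroup H, Γ.FiniteIndex ∧ ρ '' (Γ : Set H) ⊆ Set.range ρs

namespace H35

theorem srb (hig : HigStmt) (gpf : GpfStmt) (fra : FraStmt) : SrbStmt := by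
  classical
  intro K _ _ H hH d _ _ ℓ _ ρ hρ
  have hHc : IsClosed (H : Set GT) := Subgroup.isClosed_of_isOpen _ hH
  have hcH : CompactSpace H := isCompact_iff_compactSpace.1 hHc.isCompact
  have hfin : Finite (K →+* Om) := by
    have h1 : Finite (K →ₐ[ℚ] Om) := inferInstance
    exact Finite.of_injective (fun φ : K →+* Om => φ.toRatAlgHom) (fun a b hab => by
      ext x
      exact DFunLike.congr_fun hab x)
  -- the compact groups
  let Gφ : (K →+* Om) → Subgroup H := fun φ => (Gph φ).comap H.subtype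
  have hGc : ∀ φ, IsClosed ((Gφ φ : Subgroup H) : Set H) := fun φ =>
    (gpf K φ).2.1.preimage continuous_subtype_val
  have hfr : ∀ φ : K →+* Om, ∃ U : Set (GL d ℚ_[ℓ]), IsOpen U ∧ 1 ∈ U ∧
      ∀ D : Subgroup (GL d ℚ_[ℓ]), IsClosed (D : Set (GL d ℚ_[ℓ])) → D ≤ (Gφ φ).map ρ →
      (∀ g ∈ (Gφ φ).map ρ, ∃ h ∈ D, h⁻¹ * g ∈ U) → D = (Gφ φ).map ρ := by
    intro φ
    refine fra d ℓ ((Gφ φ).map ρ) ?_
    rw [Subgroup.coe_map]
    exact (hGc φ).isCompact.image hρ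
  choose U hUo hU1 hU using hfr
  have hV : IsOpen (⋂ φ, U φ) := isOpen_iInter_of_finite hUo
  have hW : IsOpen (ρ ⁻¹' (⋂ φ, U φ)) := hV.preimage hρ
  have hW' : IsOpen (Subtype.val '' (ρ ⁻¹' (⋂ φ, U φ)) : Set GT) := hH.isOpenMap_subtype_val _ hW
  obtain ⟨N, hN⟩ := ProfiniteGrp.exist_openNormalSubgroup_sub_open_nhds_of_one (G := GT) hW'
    ⟨1, by rw [Set.mem_preimage, map_one]; exact Set.mem_iInter.2 hU1, rfl⟩
  obtain ⟨S, hS, hS2⟩ := hig K N.toSubgroup N.isNormal' N.isOpen'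
  refine ⟨S, hS, fun a ha ψ π hπ ρs hsp => ⟨?_, ?_⟩⟩
  · rintro g ⟨τ, rfl⟩
    obtain ⟨σ, hσ, h1⟩ := τ.2
    exact ⟨⟨σ, hσ⟩, (hsp ⟨σ, hσ⟩ τ h1).symm⟩
  · obtain ⟨φ, hφ⟩ := hS2 a ha ψ π hπ
    refine ⟨Gφ φ, ?_, ?_⟩
    · have := (gpf K φ).2.2
      exact inferInstanceAs ((Gph φ).subgroupOf H).FiniteIndex
    · -- the closed subgroup
      have hD : (Gφ φ ⊓ (decG π).comap H.subtype).map ρ = (Gφ φ).map ρ := by
        apply hU φ
        · rw [Subgroup.coe_map, Subgroup.coe_inf]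
          refine (IsClosed.isCompact ?_).image hρ |>.isClosed
          exact (hGc φ).inter ((decG_closed π).preimage continuous_subtype_val)
        · exact Subgroup.map_mono inf_le_left
        · rintro g ⟨γ, hγ, rfl⟩
          obtain ⟨σ, hσ, hσφ, hσγ⟩ := hφ γ hγ
          obtain ⟨n, hn, hn2⟩ := hN hσγ
          have hσH : σ ∈ H := by
            have h3 : σ = (γ : GT) * (n : GT)⁻¹ := by
              rw [hn2]
              group
            rw [h3]
            exact H.mul_mem γ.2 (H.inv_mem n.2)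
          refine ⟨ρ ⟨σ, hσH⟩, Subgroup.mem_map_of_mem _ ⟨hσφ, hσ⟩, ?_⟩
          rw [← map_inv, ← map_mul]
          have h4 : (⟨σ, hσH⟩ : H)⁻¹ * γ = n := Subtype.ext hn2.symm
          rw [h4]
          exact Set.mem_iInter.1 hn φ
      rintro g ⟨γ, hγ, rfl⟩
      have h5 : ρ γ ∈ (Gφ φ ⊓ (decG π).comap H.subtype).map ρ := by
        rw [hD]
        exact Subgroup.mem_map_of_mem _ hγ
      obtain ⟨σ, ⟨_, hσ⟩, hσ2⟩ := h5
      obtain ⟨τ, hτ⟩ := hσ
      rw [← hσ2]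
      exact ⟨⟨τ, σ, σ.2, hτ⟩, hsp σ ⟨τ, σ, σ.2, hτ⟩ hτ⟩

end H35

end Pool.Agent.HIK
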