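import Pool.Agent.Helper35_HIK.Avs

/-! HIK, row SML: a conjugate is almost as large as the house for one hundred percent. -/

set_option autoImplicit false

namespace Pool.Agent.HIK.H35

open Polynomial NumberField Filter

theorem sml (avg : AvgStmt) : SmlStmt := by
  classical
  intro K _ _ σ ε hε hε1
  apply avg
  intro η hη
  have h1 : Tendsto (fun x : ℝ => 2 * (3 * x) ^ ε / x + 1 / x) atTop (nhds 0) := by
    have h2 : Tendsto (fun x : ℝ => x ^ (-(1 - ε))) atTop (nhds 0) :=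
      tendsto_rpow_neg_atTop (by linarith)
    have h3 : Tendsto (fun x : ℝ => 2 * 3 ^ ε * x ^ (-(1 - ε)) + 1 / x) atTop (nhds 0) := by
      have h4 := (h2.const_mul (2 * (3 : ℝ) ^ ε)).add (tendsto_inv_atTop_zero (𝕜 := ℝ))
      rw [mul_zero, zero_add] at h4
      refine h4.congr fun x => ?_
      rw [one_div]
    refine h3.congr' ?_
    filter_upwards [eventually_gt_atTop 0] with x hx
    congr 1
    rw [Real.mul_rpow (by norm_num) hx.le, neg_sub, Real.rpow_sub hx, Real.rpow_one]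
    ring
  have h2 : ∀ᶠ X : ℕ in atTop, 2 * (3 * (X : ℝ)) ^ ε / X + 1 / X < η :=
    (h1.comp tendsto_natCast_atTop_atTop).eventually_lt_const hη
  obtain ⟨X0, hX0⟩ := eventually_atTop.1 h2
  refine ⟨X0 + 1, fun X hX a0 ha0 => ?_⟩
  have hXpos : (0 : ℝ) < X := by
    have : 0 < X := by omega
    exact_mod_cast this
  have h3 := hX0 X (by omega)
  rw [← add_div, div_lt_iff₀ hXpos] at h3
  refine le_trans ?_ h3.le
  refine le_trans ?_ (card_ball X (σ a0) ((3 * (X : ℝ)) ^ ε) (by positivity))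
  have h4 : Nat.card {j : ℕ // j < X ∧ a0 + (j : 𝓞 K) ∈
      {w : 𝓞 K | ‖σ (w : K)‖ < house (w : K) ^ ε}} ≤
      ((Finset.range X).filter fun j : ℕ => ‖σ a0 + j‖ < (3 * (X : ℝ)) ^ ε).card := by
    rw [← Nat.card_eq_finsetCard]
    refine Nat.card_le_card_of_injective (fun j => ⟨j.1, ?_⟩) (fun a b hab => ?_)
    · obtain ⟨j, hj1, hj2⟩ := j
      rw [Finset.mem_filter, Finset.mem_range]
      refine ⟨hj1, ?_⟩
      have h5 : ‖σ ((a0 + (j : 𝓞 K) : 𝓞 K) : K)‖ < house ((a0 + (j : 𝓞 K) : 𝓞 K) : K) ^ ε := hj2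
      have e1 : σ ((a0 + (j : 𝓞 K) : 𝓞 K) : K) = σ (a0 : K) + j := by
        simp
      rw [e1] at h5
      refine h5.trans_le ?_
      refine Real.rpow_le_rpow (house_nonneg _) ?_ hε.le
      have h6 : house ((a0 : K) + ((j : 𝓞 K) : K)) ≤ house (a0 : K) + house ((j : 𝓞 K) : K) :=
        house_add_le _ _
      rw [house_natCast] at h6
      have h7 : (j : ℝ) ≤ X := by exact_mod_cast hj1.le
      have e2 : ((a0 + (j : 𝓞 K) : 𝓞 K) : K) = (a0 : K) + ((j : 𝓞 K) : K) := by simp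
      rw [e2]
      linarith
    · exact Subtype.ext (by simpa using hab)
  exact_mod_cast h4

end Pool.Agent.HIK.H35
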